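import Pool.Agent.H317I.Poset3

set_option autoImplicit false

/-!
Polylogarithmic upper bounds for the `ℤ₂`-index of every finite strongly regular free `ℤ₂`-complex
in terms of its number `N` of vertices and its number `M` of maximal cells, and of the local
quantities `s` (number of vertices of a maximal cell) and `t` (number of maximal cells at a vertex):

* `ind ≤ C · log N · log M · min (log N) (log M)` always;
* `ind ≤ C · min (log² (1+s) · log (1+t) + log N) (log² (1+t) · log (1+s) + log M)`;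
* `ind ≤ C · log N · log M` (the bound asked for in Q1) if `log² (1+s) ≤ log N` or `log² (1+t) ≤ log M`.

`P` is the face poset, `σ` the free cellular involution; the points of the complex are the convex
weights `f : P → ℝ` supported on chains of `P` (order complex = barycentric subdivision), exactly as
in the frozen statement S12829. Vertices = minimal elements, maximal cells = maximal elements.
-/

open Finset

namespace Pool.Agent.Results.MP_191c59_gt.PolylogIndexBound

open Pool.Agent.H317I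

/-- **Theorem.** There is an absolute constant `C` such that for every finite strongly regular
poset `P` with a fixed-point free order-preserving involution `σ`, with `N` minimal and `M` maximal
elements, at most `s` minimal elements below each maximal one and at most `t` maximal elements above
each minimal one, there is a continuous antipodal map from the order complex of `P` to the sphere
`S^n` for some `n` satisfying the three bounds displayed. -/
theorem result :
    ∃ C : ℝ, ∀ (P : Type) [Fintype P] [PartialOrder P] (σ : P ≃o P) (s t : ℕ),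
      (∀ x y : P, {z : P | z ≤ x ∧ z ≤ y} = ∅ ∨
        ∃ w : P, {z : P | z ≤ x ∧ z ≤ y} = {z : P | z ≤ w}) →
      (∀ x : P, σ (σ x) = x) → (∀ x : P, σ x ≠ x) →
      (∀ w : P, IsMax w → {u : P | IsMin u ∧ u ≤ w}.ncard ≤ s) →
      (∀ u : P, IsMin u → {w : P | IsMax w ∧ u ≤ w}.ncard ≤ t) →
      ∃ n : ℕ,
        (n : ℝ) ≤ C * Real.log ({x : P | IsMin x}.ncard : ℝ) *
            Real.log ({x : P | IsMax x}.ncard : ℝ) *
            min (Real.log ({x : P | IsMin x}.ncard : ℝ)) (Real.log ({x : P | IsMax x}.ncard : ℝ)) ∧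
        (n : ℝ) ≤ C * min
            (Real.log (1 + s) ^ 2 * Real.log (1 + t) + Real.log ({x : P | IsMin x}.ncard : ℝ))
            (Real.log (1 + t) ^ 2 * Real.log (1 + s) + Real.log ({x : P | IsMax x}.ncard : ℝ)) ∧
        ((Real.log (1 + s) ^ 2 ≤ Real.log ({x : P | IsMin x}.ncard : ℝ) ∨
            Real.log (1 + t) ^ 2 ≤ Real.log ({x : P | IsMax x}.ncard : ℝ)) →
          (n : ℝ) ≤ C * Real.log ({x : P | IsMin x}.ncard : ℝ) *
            Real.log ({x : P | IsMax x}.ncard : ℝ)) ∧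
        ∃ g : (P → ℝ) → EuclideanSpace ℝ (Fin (n + 1)),
          ContinuousOn g {f : P → ℝ | (∀ p, 0 ≤ f p) ∧ (∑ p, f p = 1) ∧
              IsChain (· ≤ ·) {p : P | f p ≠ 0}} ∧
          ∀ f ∈ {f : P → ℝ | (∀ p, 0 ≤ f p) ∧ (∑ p, f p = 1) ∧
              IsChain (· ≤ ·) {p : P | f p ≠ 0}},
            ‖g f‖ = 1 ∧ g (fun p => f (σ p)) = -g f := by
  refine ⟨2 ^ 48, ?_⟩
  intro P _ _ σ s t hreg hinv hfree hs ht
  classical
  have hsep : ∀ x y : P, x ≤ y → σ x ≤ y → False := by
    intro x y h1 h2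
    have h3 : x ≤ σ y := by
      have := σ.le_iff_le.2 h2
      rwa [hinv] at this
    rcases hreg y (σ y) with h | ⟨w, hw⟩
    · have : x ∈ {z : P | z ≤ y ∧ z ≤ σ y} := ⟨h1, h3⟩
      rw [h] at this
      exact this
    · have hw1 : w ≤ y ∧ w ≤ σ y := by
        have : w ∈ {z : P | z ≤ w} := le_refl w
        rw [← hw] at this
        exact this
      have hw2 : σ w ≤ w := by
        have : σ w ∈ {z : P | z ≤ y ∧ z ≤ σ y} := by
          refine ⟨?_, σ.le_iff_le.2 hw1.1⟩
          have := σ.le_iff_le.2 hw1.2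
          rwa [hinv] at this
        rw [hw] at this
        exact this
      have hw3 : w ≤ σ w := by
        have := σ.le_iff_le.2 hw2
        rwa [hinv] at this
      exact hfree w (le_antisymm hw2 hw3)
  have hnon : ∀ f : P → ℝ, ∑ p, f p = 1 → ({p : P | f p ≠ 0}).Nonempty := by
    intro f hf
    by_contra hcon
    rw [Set.not_nonempty_iff_eq_empty] at hcon
    have : ∀ p, f p = 0 := by
      intro p
      by_contra hp
      have : p ∈ {p : P | f p ≠ 0} := hp
      rw [hcon] at this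
      exact this
    simp [this] at hf
  set N : ℕ := {x : P | IsMin x}.ncard with hN
  set M : ℕ := {x : P | IsMax x}.ncard with hM
  have hs' : ∀ w : P, IsMax w → {u : P | IsMin u ∧ u ≤ w}.ncard ≤ min s (N - 1) := by
    intro w hw
    refine le_min (hs w hw) ?_
    rcases Set.eq_empty_or_nonempty {u : P | IsMin u ∧ u ≤ w} with h | ⟨u, hu⟩
    · rw [h, Set.ncard_empty]; exact Nat.zero_le _
    · have h1 : {u : P | IsMin u ∧ u ≤ w} ⊆ {x : P | IsMin x} \ {σ u} := by
        intro v hv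
        refine ⟨hv.1, fun h => ?_⟩
        have h' : v = σ u := h
        exact hsep u w hu.2 (h' ▸ hv.2)
      refine (Set.ncard_le_ncard h1 (Set.toFinite _)).trans ?_
      rw [Set.ncard_sdiff_singleton_of_mem (show σ u ∈ {x : P | IsMin x} from (OrderIso.isMin_apply σ).2 hu.1)]
  have ht' : ∀ u : P, IsMin u → {w : P | IsMax w ∧ u ≤ w}.ncard ≤ min t (M - 1) := by
    intro u hu
    refine le_min (ht u hu) ?_
    rcases Set.eq_empty_or_nonempty {w : P | IsMax w ∧ u ≤ w} with h | ⟨w, hw⟩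
    · rw [h, Set.ncard_empty]; exact Nat.zero_le _
    · have h1 : {w : P | IsMax w ∧ u ≤ w} ⊆ {x : P | IsMax x} \ {σ w} := by
        intro v hv
        refine ⟨hv.1, fun h => ?_⟩
        have h' : v = σ w := h
        have h2 : u ≤ σ w := h' ▸ hv.2
        have h3 : σ u ≤ w := by
          have := σ.le_iff_le.2 h2
          rwa [hinv] at this
        exact hsep u w hw.2 h3
      refine (Set.ncard_le_ncard h1 (Set.toFinite _)).trans ?_
      rw [Set.ncard_sdiff_singleton_of_mem (show σ w ∈ {x : P | IsMax x} from (OrderIso.isMax_apply σ).2 hw.1)]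
  obtain ⟨n₁, hn₁, hg₁⟩ := half3 σ hinv hfree hsep (min s (N - 1)) (min t (M - 1)) hs' ht'
      {f : P → ℝ | (∀ p, 0 ≤ f p) ∧ (∑ p, f p = 1) ∧ IsChain (· ≤ ·) {p : P | f p ≠ 0}} (by
        rintro f ⟨h0, h1, h2⟩
        refine ⟨h0, h1, ?_⟩
        obtain ⟨i, hi⟩ := Set.Finite.exists_minimal (Set.toFinite {p : P | f p ≠ 0}) (hnon f h1)
        refine ⟨i, fun p hp => ?_⟩
        rcases eq_or_ne i p with rfl | hne
        · exact le_rfl
        · rcases h2 hi.1 hp hne with h | h
          · exact h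
          · exact hi.2 hp h)
  obtain ⟨n₂, hn₂, hg₂⟩ := half3 (P := Pᵒᵈ) σ.dual hinv hfree
      (fun x y h1 h2 => by
        have h1' : OrderDual.ofDual y ≤ OrderDual.ofDual x := h1
        have h2' : OrderDual.ofDual y ≤ σ (OrderDual.ofDual x) := h2
        refine hsep (OrderDual.ofDual y) (OrderDual.ofDual x) h1' ?_
        have := σ.le_iff_le.2 h2'
        rwa [hinv] at this)
      (min t (M - 1)) (min s (N - 1)) (fun w hw => ht' (OrderDual.ofDual w) hw)
      (fun u hu => hs' (OrderDual.ofDual u) hu)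
      {f : P → ℝ | (∀ p, 0 ≤ f p) ∧ (∑ p, f p = 1) ∧ IsChain (· ≤ ·) {p : P | f p ≠ 0}} (by
        rintro f ⟨h0, h1, h2⟩
        refine ⟨h0, h1, ?_⟩
        obtain ⟨i, hi⟩ := Set.Finite.exists_maximal (Set.toFinite {p : P | f p ≠ 0}) (hnon f h1)
        refine ⟨OrderDual.toDual i, fun p hp => ?_⟩
        have key : OrderDual.ofDual p ≤ i := by
          rcases eq_or_ne i (OrderDual.ofDual p) with h | hne
          · exact le_of_eq h.symm
          · rcases h2 hi.1 hp hne with h | h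
            · exact hi.2 hp h
            · exact h
        exact key)
  have e1 : ({x : Pᵒᵈ | IsMin x}).ncard = M := rfl
  rw [e1] at hn₂
  rw [← hN] at hn₁
  -- logarithms
  set LN : ℝ := Real.log (N : ℝ) with hLN
  set LM : ℝ := Real.log (M : ℝ) with hLM
  set Ls : ℝ := Real.log (1 + (s : ℝ)) with hLs
  set Lt : ℝ := Real.log (1 + (t : ℝ)) with hLt
  set a : ℝ := Real.log (1 + ((min s (N - 1) : ℕ) : ℝ)) with ha
  set b : ℝ := Real.log (1 + ((min t (M - 1) : ℕ) : ℝ)) with hb
  have hLs0 : 0 ≤ Ls := Real.log_nonneg (by linarith [(Nat.cast_nonneg s : (0 : ℝ) ≤ s)])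
  have hLt0 : 0 ≤ Lt := Real.log_nonneg (by linarith [(Nat.cast_nonneg t : (0 : ℝ) ≤ t)])
  have ha0 : 0 ≤ a := Real.log_nonneg (by
    have : (0 : ℝ) ≤ ((min s (N - 1) : ℕ) : ℝ) := Nat.cast_nonneg _
    linarith)
  have hb0 : 0 ≤ b := Real.log_nonneg (by
    have : (0 : ℝ) ≤ ((min t (M - 1) : ℕ) : ℝ) := Nat.cast_nonneg _
    linarith)
  have haLs : a ≤ Ls := by
    refine Real.log_le_log ?_ ?_
    · have : (0 : ℝ) ≤ ((min s (N - 1) : ℕ) : ℝ) := Nat.cast_nonneg _
      linarith
    · have : ((min s (N - 1) : ℕ) : ℝ) ≤ s := by exact_mod_cast min_le_left _ _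
      linarith
  have hbLt : b ≤ Lt := by
    refine Real.log_le_log ?_ ?_
    · have : (0 : ℝ) ≤ ((min t (M - 1) : ℕ) : ℝ) := Nat.cast_nonneg _
      linarith
    · have : ((min t (M - 1) : ℕ) : ℝ) ≤ t := by exact_mod_cast min_le_left _ _
      linarith
  rcases isEmpty_or_nonempty P with hP | ⟨⟨p₁⟩⟩
  · refine ⟨0, ?_, ?_, ?_, fun _ => 0, continuousOn_const, ?_⟩
    · have : N = 0 := by rw [hN, Set.eq_empty_of_isEmpty {x : P | IsMin x}, Set.ncard_empty]
      rw [hLN, this]; simp
    · have h1 : N = 0 := by rw [hN, Set.eq_empty_of_isEmpty {x : P | IsMin x}, Set.ncard_empty]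
      have h2 : M = 0 := by rw [hM, Set.eq_empty_of_isEmpty {x : P | IsMax x}, Set.ncard_empty]
      rw [hLN, hLM, h1, h2]
      simp only [Nat.cast_zero, Real.log_zero, add_zero]
      have : 0 ≤ min (Ls ^ 2 * Lt) (Lt ^ 2 * Ls) := le_min (by positivity) (by positivity)
      positivity
    · intro _
      have : N = 0 := by rw [hN, Set.eq_empty_of_isEmpty {x : P | IsMin x}, Set.ncard_empty]
      rw [hLN, this]; simp
    · intro f hf
      have := hf.2.1
      simp at this
  obtain ⟨u₁, hu₁, hu₁'⟩ := Finite.exists_le_minimal (α := P) (p := fun _ => True) (a := p₁) trivial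
  obtain ⟨w₁, hw₁, hw₁'⟩ := Finite.exists_le_maximal (α := P) (p := fun _ => True) (a := p₁) trivial
  have hN2 : 2 ≤ N := by
    have h1 : ({u₁, σ u₁} : Set P) ⊆ {x : P | IsMin x} := by
      intro x hx
      rcases hx with rfl | hx
      · exact minimal_true.1 hu₁'
      · have : x = σ u₁ := hx
        rw [this]; exact (OrderIso.isMin_apply σ).2 (minimal_true.1 hu₁')
    have h2 := Set.ncard_le_ncard h1 (Set.toFinite _)
    rwa [Set.ncard_pair (fun h => hfree u₁ h.symm)] at h2
  have hM2 : 2 ≤ M := by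
    have h1 : ({w₁, σ w₁} : Set P) ⊆ {x : P | IsMax x} := by
      intro x hx
      rcases hx with rfl | hx
      · exact maximal_true.1 hw₁'
      · have : x = σ w₁ := hx
        rw [this]; exact (OrderIso.isMax_apply σ).2 (maximal_true.1 hw₁')
    have h2 := Set.ncard_le_ncard h1 (Set.toFinite _)
    rwa [Set.ncard_pair (fun h => hfree w₁ h.symm)] at h2
  have hNr : (2 : ℝ) ≤ N := by exact_mod_cast hN2
  have hMr : (2 : ℝ) ≤ M := by exact_mod_cast hM2
  have hlog2 : 0.6931 < Real.log 2 := lt_trans (by norm_num) Real.log_two_gt_d9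
  have hlN : 0.6931 ≤ LN := hlog2.le.trans (Real.log_le_log (by norm_num) hNr)
  have hlM : 0.6931 ≤ LM := hlog2.le.trans (Real.log_le_log (by norm_num) hMr)
  have haLN : a ≤ LN := by
    refine Real.log_le_log ?_ ?_
    · have : (0 : ℝ) ≤ ((min s (N - 1) : ℕ) : ℝ) := Nat.cast_nonneg _
      linarith
    · have h1 : 1 + min s (N - 1) ≤ N := by
        have := min_le_right s (N - 1)
        omega
      exact_mod_cast h1
  have hbLM : b ≤ LM := by
    refine Real.log_le_log ?_ ?_
    · have : (0 : ℝ) ≤ ((min t (M - 1) : ℕ) : ℝ) := Nat.cast_nonneg _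
      linarith
    · have h1 : 1 + min t (M - 1) ≤ M := by
        have := min_le_right t (M - 1)
        omega
      exact_mod_cast h1
  have hLN0 : 0 < LN := by linarith
  have hLM0 : 0 < LM := by linarith
  have hNM : 0.48 ≤ LN * LM := by nlinarith
  -- the two bounds
  have A1 : ∀ x y : ℝ, a ^ 2 ≤ x → b ≤ y → 0 ≤ x → (n₁ : ℝ) ≤ 2 ^ 46 * (x * y + LN) := by
    intro x y hx hy hx0
    refine hn₁.trans ?_
    have : a ^ 2 * b ≤ x * y := mul_le_mul hx hy hb0 hx0
    exact mul_le_mul_of_nonneg_left (by linarith) (by norm_num)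
  have A2 : ∀ x y : ℝ, b ^ 2 ≤ x → a ≤ y → 0 ≤ x → (n₂ : ℝ) ≤ 2 ^ 46 * (x * y + LM) := by
    intro x y hx hy hx0
    refine hn₂.trans ?_
    have : b ^ 2 * a ≤ x * y := mul_le_mul hx hy ha0 hx0
    exact mul_le_mul_of_nonneg_left (by linarith) (by norm_num)
  have B1 : ∀ n : ℕ, (n : ℝ) ≤ n₁ → (n : ℝ) ≤ n₂ →
      (n : ℝ) ≤ 2 ^ 48 * LN * LM * min LN LM ∧
      (n : ℝ) ≤ 2 ^ 48 * min (Ls ^ 2 * Lt + LN) (Lt ^ 2 * Ls + LM) ∧
      ((Ls ^ 2 ≤ LN ∨ Lt ^ 2 ≤ LM) → (n : ℝ) ≤ 2 ^ 48 * LN * LM) := by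
    intro n h1 h2
    refine ⟨?_, ?_, ?_⟩
    · have c1 := A1 (LN ^ 2) LM (pow_le_pow_left₀ ha0 haLN 2) hbLM (by positivity)
      have c2 := A2 (LM ^ 2) LN (pow_le_pow_left₀ hb0 hbLM 2) haLN (by positivity)
      rcases le_total LN LM with h | h
      · rw [min_eq_left h]
        have d1 : LN ≤ 3 * (LN ^ 2 * LM) := by
          have : LN * 1 ≤ LN * (3 * (LN * LM)) := mul_le_mul_of_nonneg_left (by linarith) hLN0.le
          nlinarith
        calc (n : ℝ) ≤ n₁ := h1
          _ ≤ _ := c1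
          _ ≤ 2 ^ 46 * (LN ^ 2 * LM + 3 * (LN ^ 2 * LM)) := by gcongr
          _ = _ := by ring
      · rw [min_eq_right h]
        have d1 : LM ≤ 3 * (LM ^ 2 * LN) := by
          have : LM * 1 ≤ LM * (3 * (LN * LM)) := mul_le_mul_of_nonneg_left (by linarith) hLM0.le
          nlinarith
        calc (n : ℝ) ≤ n₂ := h2
          _ ≤ _ := c2
          _ ≤ 2 ^ 46 * (LM ^ 2 * LN + 3 * (LM ^ 2 * LN)) := by gcongr
          _ = _ := by ring
    · have c1 := A1 (Ls ^ 2) Lt (pow_le_pow_left₀ ha0 haLs 2) hbLt (by positivity)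
      have c2 := A2 (Lt ^ 2) Ls (pow_le_pow_left₀ hb0 hbLt 2) haLs (by positivity)
      have d1 : 0 ≤ Ls ^ 2 * Lt + LN := by positivity
      have d2 : 0 ≤ Lt ^ 2 * Ls + LM := by positivity
      rw [mul_min_of_nonneg _ _ (by norm_num : (0 : ℝ) ≤ 2 ^ 48)]
      refine le_min ?_ ?_
      · calc (n : ℝ) ≤ n₁ := h1
          _ ≤ _ := c1
          _ ≤ 2 ^ 48 * (Ls ^ 2 * Lt + LN) := mul_le_mul_of_nonneg_right (by norm_num) d1
      · calc (n : ℝ) ≤ n₂ := h2
          _ ≤ _ := c2
          _ ≤ 2 ^ 48 * (Lt ^ 2 * Ls + LM) := mul_le_mul_of_nonneg_right (by norm_num) d2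
    · rintro (h | h)
      · have c1 := A1 LN LM ((pow_le_pow_left₀ ha0 haLs 2).trans h) hbLM hLN0.le
        have d1 : LN ≤ 3 * (LN * LM) := by nlinarith
        calc (n : ℝ) ≤ n₁ := h1
          _ ≤ _ := c1
          _ ≤ 2 ^ 46 * (LN * LM + 3 * (LN * LM)) := by gcongr
          _ = _ := by ring
      · have c2 := A2 LM LN ((pow_le_pow_left₀ hb0 hbLt 2).trans h) haLN hLM0.le
        have d1 : LM ≤ 3 * (LM * LN) := by nlinarith
        calc (n : ℝ) ≤ n₂ := h2
          _ ≤ _ := c2
          _ ≤ 2 ^ 46 * (LM * LN + 3 * (LM * LN)) := by gcongr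
          _ = _ := by ring
  rcases le_total n₁ n₂ with h | h
  · obtain ⟨b1, b2, b3⟩ := B1 n₁ le_rfl (by exact_mod_cast h)
    obtain ⟨g, hg1, hg2⟩ := hg₁
    exact ⟨n₁, b1, b2, b3, g, hg1, hg2⟩
  · obtain ⟨b1, b2, b3⟩ := B1 n₂ (by exact_mod_cast h) le_rfl
    obtain ⟨g, hg1, hg2⟩ := hg₂
    exact ⟨n₂, b1, b2, b3, g, hg1, hg2⟩

end Pool.Agent.Results.MP_191c59_gt.PolylogIndexBound
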